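import Pool.Agent.Helper72.AI.Stmts

/-! Packet S_norm (MP_870acd_co).  helper31. -/

set_option autoImplicit false

namespace Pool.Agent.Helper31.AI

open AffInc

/-- the triple defining the similarity -/
noncomputable def simX (p : ℝ × ℝ) (a b s : ℝ) : Fin 3 → ℝ × ℝ :=
  ![(2 / s * (-(p.1 * a) - p.2 * b) - 1, 2 / s * (p.1 * b - p.2 * a)),
    (2 / s * (-(p.1 * a) - p.2 * b) - 1 + 2 / s * a, 2 / s * (p.1 * b - p.2 * a) - 2 / s * b),
    (2 / s * (-(p.1 * a) - p.2 * b) - 1 + 2 / s * b, 2 / s * (p.1 * b - p.2 * a) + 2 / s * a)]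

lemma sim_fst (p z : ℝ × ℝ) (a b s : ℝ) :
    (T (simX p a b s) z).1 = 2 / s * ((z.1 - p.1) * a + (z.2 - p.2) * b) - 1 := by
  rw [T_fst]; simp [simX]; ring

lemma sim_snd (p z : ℝ × ℝ) (a b s : ℝ) :
    (T (simX p a b s) z).2 = 2 / s * (-((z.1 - p.1) * b) + (z.2 - p.2) * a) := by
  rw [T_snd]; simp [simX]; ring

lemma sim_det (p : ℝ × ℝ) (a b s : ℝ) : det3 (simX p a b s) = (2 / s) ^ 2 * (a ^ 2 + b ^ 2) := by
  simp [det3, simX]; ring

theorem pf_S_norm : AffInc.S_norm := by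
  intro G hG
  have hne : G.Nonempty := hG.int.mono interior_subset
  have hcont : Continuous (fun x : (ℝ × ℝ) × (ℝ × ℝ) =>
      (x.2.1 - x.1.1) ^ 2 + (x.2.2 - x.1.2) ^ 2) := by fun_prop
  obtain ⟨⟨p, q⟩, ⟨hp, hq⟩, hmax⟩ := (hG.cpt.prod hG.cpt).exists_isMaxOn (hne.prod hne)
    hcont.continuousOn
  have hmax' : ∀ x ∈ G, ∀ y ∈ G, (y.1 - x.1) ^ 2 + (y.2 - x.2) ^ 2
      ≤ (q.1 - p.1) ^ 2 + (q.2 - p.2) ^ 2 := fun x hx y hy => hmax (Set.mk_mem_prod hx hy)
  simp only at hp hq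
  set a := q.1 - p.1 with ha
  set b := q.2 - p.2 with hb
  set s := a ^ 2 + b ^ 2 with hs
  have hs0 : 0 < s := by
    obtain ⟨x, hx⟩ := hG.int
    obtain ⟨δ, hδ, hball⟩ := Metric.mem_nhds_iff.mp (mem_interior_iff_mem_nhds.mp hx)
    have hx0 : x ∈ G := interior_subset hx
    have hy : (x.1 + δ / 2, x.2) ∈ G := by
      refine hball ?_
      rw [Metric.mem_ball, Prod.dist_eq]
      simp only [dist_self, Real.dist_eq, add_sub_cancel_left]
      rw [abs_of_pos (by positivity)]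
      exact max_lt (by linarith) hδ
    have := hmax' x hx0 _ hy
    simp only [add_sub_cancel_left, sub_self] at this
    have h2 : 0 < (δ / 2) ^ 2 := by positivity
    have h3 : (δ / 2) ^ 2 + (0 : ℝ) ^ 2 = (δ / 2) ^ 2 := by ring
    rw [h3] at this
    linarith
  have hdet : det3 (simX p a b s) ≠ 0 := by
    rw [sim_det, ← hs]
    positivity
  refine ⟨simX p a b s, hdet, ?_⟩
  have key : ∀ z ∈ G, 0 ≤ (z.1 - p.1) * a + (z.2 - p.2) * b ∧
      (z.1 - p.1) * a + (z.2 - p.2) * b ≤ s ∧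
      ((z.1 - p.1) ^ 2 + (z.2 - p.2) ^ 2) / 2 ≤ (z.1 - p.1) * a + (z.2 - p.2) * b ∧
      ((z.1 - p.1) * a + (z.2 - p.2) * b) ^ 2 + (-((z.1 - p.1) * b) + (z.2 - p.2) * a) ^ 2
        ≤ s ^ 2 := by
    intro z hz
    have h1 := hmax' p hp z hz
    have h2 := hmax' q hq z hz
    have e1 : z.1 - q.1 = (z.1 - p.1) - a := by rw [ha]; ring
    have e2 : z.2 - q.2 = (z.2 - p.2) - b := by rw [hb]; ring
    rw [e1, e2] at h2
    generalize z.1 - p.1 = u at *
    generalize z.2 - p.2 = v at *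
    have h3 : (u ^ 2 + v ^ 2) / 2 ≤ u * a + v * b := by
      have : (u - a) ^ 2 + (v - b) ^ 2 = u ^ 2 + v ^ 2 - 2 * (u * a + v * b) + s := by
        rw [hs]; ring
      linarith
    have h4 : (u * a + v * b) ^ 2 + (-(u * b) + v * a) ^ 2 ≤ s ^ 2 := by
      have : (u * a + v * b) ^ 2 + (-(u * b) + v * a) ^ 2 = (u ^ 2 + v ^ 2) * s := by
        rw [hs]; ring
      rw [this]
      have h7 := mul_le_mul_of_nonneg_right h1 hs0.le
      have h8 : s * s = s ^ 2 := by ring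
      rw [h8] at h7
      exact h7
    have h5 : 0 ≤ u * a + v * b := by
      have : 0 ≤ (u ^ 2 + v ^ 2) / 2 := by positivity
      linarith
    refine ⟨h5, ?_, h3, h4⟩
    have h6 : (u * a + v * b) ^ 2 ≤ s ^ 2 := by
      have := sq_nonneg (-(u * b) + v * a)
      linarith
    exact (abs_le_of_sq_le_sq h6 hs0.le |>.trans' (le_abs_self _))
  have hs2 : (0 : ℝ) < 2 / s := by positivity
  refine ⟨hG.image _ hdet, ?_, ?_, ?_, ?_, ?_⟩
  · rintro _ ⟨z, hz, rfl⟩
    obtain ⟨k1, k2, -, -⟩ := key z hz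
    rw [sim_fst]
    constructor
    · have := mul_nonneg hs2.le k1
      linarith
    · have := mul_le_mul_of_nonneg_left k2 hs2.le
      have e : 2 / s * s = 2 := by field_simp
      rw [e] at this
      linarith
  · refine ⟨q, hq, ?_⟩
    ext
    · rw [sim_fst, ← ha, ← hb]
      have : a * a + b * b = s := by rw [hs]; ring
      rw [this]
      have e : 2 / s * s = 2 := by field_simp
      rw [e]; norm_num
    · rw [sim_snd, ← ha, ← hb]
      have : -(a * b) + b * a = 0 := by ring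
      rw [this, mul_zero]
  · refine ⟨p, hp, ?_⟩
    ext
    · rw [sim_fst]; simp
    · rw [sim_snd]; simp
  · rintro _ ⟨z, hz, rfl⟩ h1
    obtain ⟨-, -, -, k4⟩ := key z hz
    rw [sim_fst] at h1
    have h2 : (z.1 - p.1) * a + (z.2 - p.2) * b = s := by
      have : 2 / s * ((z.1 - p.1) * a + (z.2 - p.2) * b) = 2 := by linarith
      field_simp at this
      linarith
    rw [h2] at k4
    have h3 : (-((z.1 - p.1) * b) + (z.2 - p.2) * a) ^ 2 ≤ 0 := by linarith
    have h4 : -((z.1 - p.1) * b) + (z.2 - p.2) * a = 0 := by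
      have := le_antisymm h3 (sq_nonneg _)
      exact pow_eq_zero_iff (two_ne_zero) |>.mp this
    rw [sim_snd, h4, mul_zero]
  · rintro _ ⟨z, hz, rfl⟩ h1
    obtain ⟨k1, -, k3, -⟩ := key z hz
    rw [sim_fst] at h1
    have h2 : (z.1 - p.1) * a + (z.2 - p.2) * b = 0 := by
      have : 2 / s * ((z.1 - p.1) * a + (z.2 - p.2) * b) = 0 := by linarith
      rcases mul_eq_zero.mp this with h | h
      · exact absurd h hs2.ne'
      · exact h
    rw [h2] at k3
    have h3 : z.1 - p.1 = 0 := by nlinarith [sq_nonneg (z.1 - p.1), sq_nonneg (z.2 - p.2)]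
    have h4 : z.2 - p.2 = 0 := by nlinarith [sq_nonneg (z.1 - p.1), sq_nonneg (z.2 - p.2)]
    rw [sim_snd, h3, h4]; simp

end Pool.Agent.Helper31.AI
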